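import Pool.Agent.Helper17.FP.Stmts2
import Pool.Agent.Helper17.SO.Main

/-! MAING (MP_c38931_co): the final theorem of project FP. -/

set_option autoImplicit false

open Finset

namespace Pool.Agent.Helper17.FP

open Pool.Agent.Helper17.SO Pool.Agent.Helper17.SV

theorem maing_des (hD : ST_DESF) (hT : ST_TRQ) (hI : Pool.Agent.Helper17.SO.ST_INC)
    (hS : Pool.Agent.Helper17.SO.ST_SCH) (lam v k : ℕ) (B : Fin v → Finset (Fin v))
    (hlam : 1 ≤ lam) (hk : 1 ≤ k) (hkv : k < v) (hB : SymD v k lam B)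
    (h : (∃ (q r : ℕ) (g : Equiv.Perm (Fin v)), q.Prime ∧ q ∣ v ∧ g ^ q ^ r = 1 ∧
        Even (nfix g) ∧ Aut B g) ∨
      ∃ (q : ℕ) (G : Subgroup (Equiv.Perm (Fin v))), q.Prime ∧ q ∣ v ∧ v < q ^ 2 ∧
        (∀ g ∈ G, Aut B g) ∧ ∀ a b : Fin v, ∃ g ∈ G, g a = b) :
    (∃ r : ℕ, k = r * r + lam) ∨ ∃ q : ℕ, ArithF lam q k := by
  rcases h with h | ⟨q, G, hq, hqv, hvq, hA, hG⟩
  · exact hD lam v k B hlam hk hkv hB h
  · rcases Nat.even_or_odd v with hv | hv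
    · left
      obtain ⟨hlk, heq, hAA, hrow, hcol⟩ := hI v k lam B hlam hk hkv hB
      obtain ⟨n, hn⟩ : ∃ n, k = n + lam := ⟨k - lam, by omega⟩
      have hn1 : 1 ≤ n := by omega
      have hkk : k * k = n + lam * v := by omega
      have hAA' : inc B * (inc B).transpose = (n : ℤ) • (1 : Matrix (Fin v) (Fin v) ℤ) +
          (lam : ℤ) • Matrix.of (fun _ _ => (1 : ℤ)) := by
        rw [hAA]
        have : ((k : ℤ) - lam) = (n : ℤ) := by rw [hn]; push_cast; ring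
        rw [this]
      obtain ⟨r, hr⟩ := hS v k n lam (inc B) hn1 hk hkk hv (by omega) hAA'
      exact ⟨r, by rw [hn, hr]⟩
    · obtain ⟨g, hg, ⟨r, hr⟩, hg2⟩ := hT v q G hq hqv hvq hv hG
      exact hD lam v k B hlam hk hkv hB ⟨q, r, g, hq, hqv, hr, hg2, hA g hg⟩

/-- the set of the `r * r + lam` is small -/
theorem maing_sqrt : ∃ C : ℝ, 0 < C ∧ ∀ x : ℕ, 16 ≤ x →
    (Nat.sqrt x : ℝ) + 1 ≤ C * x * (Real.log (Real.log x)) ^ (-(1 / 4) : ℝ) := by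
  refine ⟨2, by norm_num, fun x hx => ?_⟩
  have hx16 : (16 : ℝ) ≤ x := by exact_mod_cast hx
  have hx0 : (0 : ℝ) < x := by linarith
  have hlog16 : (2.7 : ℝ) < Real.log 16 := by
    have h1 : Real.log 16 = 4 * Real.log 2 := by
      rw [show (16 : ℝ) = 2 ^ 4 by norm_num, Real.log_pow]
      norm_num
    rw [h1]
    have := Real.log_two_gt_d9
    linarith
  have hL : (2.7 : ℝ) < Real.log x := lt_of_lt_of_le hlog16 (Real.log_le_log (by norm_num) hx16)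
  have hLL0 : 0 < Real.log (Real.log x) := Real.log_pos (by linarith)
  have hLLx : Real.log (Real.log x) ≤ x := by
    have h1 : Real.log (Real.log x) ≤ Real.log x := by
      have := Real.log_le_sub_one_of_pos (show (0 : ℝ) < Real.log x by linarith)
      linarith
    have h2 : Real.log x ≤ x := by
      have := Real.log_le_sub_one_of_pos hx0
      linarith
    linarith
  have h1 : (x : ℝ) ^ (-(1 / 4) : ℝ) ≤ (Real.log (Real.log x)) ^ (-(1 / 4) : ℝ) :=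
    Real.rpow_le_rpow_of_nonpos hLL0 hLLx (by norm_num)
  have h2 : (Nat.sqrt x : ℝ) + 1 ≤ 2 * (x : ℝ) ^ (3 / 4 : ℝ) := by
    have h3 : (Nat.sqrt x : ℝ) ≤ (x : ℝ) ^ (1 / 2 : ℝ) := by
      rw [← Real.sqrt_eq_rpow]
      exact Real.nat_sqrt_le_real_sqrt
    have h4 : (x : ℝ) ^ (1 / 2 : ℝ) ≤ (x : ℝ) ^ (3 / 4 : ℝ) :=
      Real.rpow_le_rpow_of_exponent_le (by linarith) (by norm_num)
    have h5 : (1 : ℝ) ≤ (x : ℝ) ^ (3 / 4 : ℝ) := Real.one_le_rpow (by linarith) (by norm_num)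
    linarith
  have h6 : (x : ℝ) ^ (3 / 4 : ℝ) = x * (x : ℝ) ^ (-(1 / 4) : ℝ) := by
    rw [show (3 / 4 : ℝ) = 1 + (-(1 / 4)) by norm_num, Real.rpow_add hx0, Real.rpow_one]
  calc (Nat.sqrt x : ℝ) + 1 ≤ 2 * (x : ℝ) ^ (3 / 4 : ℝ) := h2
    _ = 2 * x * (x : ℝ) ^ (-(1 / 4) : ℝ) := by rw [h6]; ring
    _ ≤ 2 * x * (Real.log (Real.log x)) ^ (-(1 / 4) : ℝ) := by
        apply mul_le_mul_of_nonneg_left h1 (by positivity)

theorem maing (hD : ST_DESF) (hT : ST_TRQ) (hI : Pool.Agent.Helper17.SO.ST_INC)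
    (hS' : Pool.Agent.Helper17.SO.ST_SCH) (hF : ST_FIN) (lam : ℕ) (hlam : 1 ≤ lam) :
    ∃ C : ℝ, ∀ x : ℕ, 16 ≤ x → ∀ S : Finset ℕ,
      (∀ k ∈ S, 1 ≤ k ∧ k ≤ x ∧ ∃ (v : ℕ) (B : Fin v → Finset (Fin v)), k < v ∧
        SymD v k lam B ∧
        ((∃ (q r : ℕ) (g : Equiv.Perm (Fin v)), q.Prime ∧ q ∣ v ∧ g ^ q ^ r = 1 ∧
            Even (nfix g) ∧ Aut B g) ∨
          ∃ (q : ℕ) (G : Subgroup (Equiv.Perm (Fin v))), q.Prime ∧ q ∣ v ∧ v < q ^ 2 ∧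
            (∀ g ∈ G, Aut B g) ∧ ∀ a b : Fin v, ∃ g ∈ G, g a = b)) →
      (S.card : ℝ) ≤ C * x * (Real.log (Real.log x)) ^ (-(1 / 4) : ℝ) := by
  classical
  obtain ⟨C1, hC1, h1⟩ := hF lam hlam
  obtain ⟨C2, hC2, h2⟩ := maing_sqrt
  refine ⟨C1 + C2, fun x hx S hS => ?_⟩
  set S1 := S.filter (fun k => ∃ r : ℕ, k = r * r + lam) with hS1
  set S2 := S.filter (fun k => ¬ ∃ r : ℕ, k = r * r + lam) with hS2
  have hcard : S.card = S1.card + S2.card := (Finset.card_filter_add_card_filter_not _).symm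
  have h3 : (S1.card : ℝ) ≤ (Nat.sqrt x : ℝ) + 1 := by
    have : S1.card ≤ Nat.sqrt x + 1 := main_squares lam x S1 (fun k hk => by
      rw [hS1, Finset.mem_filter] at hk
      exact ⟨(hS k hk.1).2.1, hk.2⟩)
    exact_mod_cast this
  have h4 := h1 x hx S2 (fun k hk => by
    rw [hS2, Finset.mem_filter] at hk
    obtain ⟨hk1, hk2, v, B, hk3, hk4, hk5⟩ := hS k hk.1
    refine ⟨hk2, ?_⟩
    rcases maing_des hD hT hI hS' lam v k B hlam hk1 hk3 hk4 hk5 with h | h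
    · exact absurd h hk.2
    · exact h)
  have h5 := h2 x hx
  rw [hcard]
  push_cast
  calc (S1.card : ℝ) + S2.card
      ≤ C2 * x * (Real.log (Real.log x)) ^ (-(1 / 4) : ℝ) +
        C1 * x * (Real.log (Real.log x)) ^ (-(1 / 4) : ℝ) := by linarith
    _ = (C1 + C2) * x * (Real.log (Real.log x)) ^ (-(1 / 4) : ℝ) := by ring

end Pool.Agent.Helper17.FP
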