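import Pool.Agent.Helper17.SV.Final
import Pool.Agent.Helper17.FP.MAING
import Pool.Agent.Helper83.FP.CHEB
import Pool.Agent.Helper4.FP.CL2
import Pool.Agent.Helper4.FP.DESF
import Pool.Agent.Helper95.FP.EXQ
import Pool.Agent.Helper94.FP.EXR
import Pool.Agent.Helper49.FP.FIN
import Pool.Agent.Helper37.FP.LUP
import Pool.Agent.Helper24.FP.PER
import Pool.Agent.Helper61.FP.REC
import Pool.Agent.Helper67.FP.RED
import Pool.Agent.Helper35.FP.RI
import Pool.Agent.Helper30.FP.RII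
import Pool.Agent.Helper7.FP.RIII
import Pool.Agent.Helper81.FP.RIV
import Pool.Agent.Helper72.FP.SL
import Pool.Agent.Helper81.FP.TRQ
import Pool.Agent.Helper41.FP.TWO
import Pool.Agent.Helper79.FP.WCH
import Pool.Agent.Helper67.FP.WDIV
import Pool.Agent.Helper94.FP.WNN
import Pool.Agent.Helper67.FP.WREC
import Pool.Agent.Helper25.FP.WSUM
import Pool.Agent.Helper38.FP.RHO
import Pool.Agent.Helper78.FP.BII
import Pool.Agent.Helper15.FP.BIVa
import Pool.Agent.Helper91.FP.BIVb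
import Pool.Agent.Helper58.FP.VAR2

set_option autoImplicit false

open Finset

namespace Pool.Agent.Helper17.FP

open Pool.Agent.Helper17.SO Pool.Agent.Helper17.SV

theorem fin_PER : ST_PER := st_PER st_NSQ

theorem fin_REC : ST_REC := st_REC st_CHEB

theorem fin_CL2 : ST_CL2 := st_CL2 st_RES

theorem fin_SL : ST_SL := st_SL fin_SAP st_ROOT

theorem fin_BII : ST_BII :=
  st_BII st_MER fin_REC fin_CL2 (st_TWO fin_CL2) (st_EXQ fin_PER) fin_SL

theorem fin_DENA : Pool.Agent.Helper17.SO.ST_DENA := st_DENA st_MER fin_LEG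

theorem fin_WSUM : ST_WSUM := st_WSUM fin_PER

theorem fin_VAR2 : ST_VAR2 := st_VAR2 st_WNN fin_WSUM (st_WCH fin_PER)

theorem fin_EXR : ST_EXR := st_EXR st_WNN (st_WDIV st_WNN fin_WSUM) fin_VAR2

theorem fin_BIVa : ST_BIVa :=
  st_BIVa st_MER fin_DENA fin_SL st_WNN (st_RHO st_WNN) (st_WREC st_WNN fin_WSUM) st_RED

theorem fin_BIVb : ST_BIVb :=
  st_BIVb st_MER fin_DENA fin_SL st_WNN fin_WSUM (st_RHO st_WNN) fin_EXR st_RED

theorem fin_FIN : ST_FIN :=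
  st_FIN (st_RI st_MER (st_LUP st_MER) fin_SL) (st_RII fin_BII)
    (st_RIII st_CHEB fin_REC (st_TWO fin_CL2)) (st_RIV fin_BIVa fin_BIVb)

theorem fin_DESF : ST_DESF := st_DESF st_INC st_SCH st_QRA fin_C1

theorem fin_TRQ : ST_TRQ := st_TRQ (st_PL st_PB)

/-- the final form -/
theorem fin_mainF (lam : ℕ) (hlam : 1 ≤ lam) :
    ∃ C : ℝ, ∀ x : ℕ, 16 ≤ x → ∀ S : Finset ℕ,
      (∀ k ∈ S, 1 ≤ k ∧ k ≤ x ∧ ∃ (v : ℕ) (B : Fin v → Finset (Fin v)), k < v ∧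
        (∀ i, (B i).card = k) ∧
        (∀ a b : Fin v, a ≠ b →
          (Finset.univ.filter (fun i => a ∈ B i ∧ b ∈ B i)).card = lam) ∧
        ((∃ (q r : ℕ) (g : Equiv.Perm (Fin v)), q.Prime ∧ q ∣ v ∧ g ^ q ^ r = 1 ∧
            Even (Nat.card {a : Fin v // g a = a}) ∧ ∀ i, ∃ j, B j = (B i).image g) ∨
          ∃ (q : ℕ) (G : Subgroup (Equiv.Perm (Fin v))), q.Prime ∧ q ∣ v ∧ v < q ^ 2 ∧
            (∀ g ∈ G, ∀ i, ∃ j, B j = (B i).image g) ∧ ∀ a b : Fin v, ∃ g ∈ G, g a = b)) →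
      (S.card : ℝ) ≤ C * x * Real.log (Real.log x) ^ (-(1 / 4) : ℝ) := by
  obtain ⟨C, hC⟩ := maing fin_DESF fin_TRQ st_INC st_SCH fin_FIN lam hlam
  refine ⟨C, fun x hx S hS => hC x hx S (fun k hk => ?_)⟩
  obtain ⟨h1, h2, v, B, h3, h4, h5, h6⟩ := hS k hk
  exact ⟨h1, h2, v, B, h3, ⟨h4, h5⟩, h6⟩

end Pool.Agent.Helper17.FP
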