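import Pool.Agent.Helper17.SV.Stmts

set_option autoImplicit false

/-! MP_c38931_co, project FP (density zero for the orders of symmetric designs with a
fixed-point-free automorphism of prime power order): statements of the modules.
Blueprint with the proofs: `/team-store/fp_blueprint.md`. Throughout `L = log x`. -/

open Finset

namespace Pool.Agent.Helper17.FP

open Pool.Agent.Helper17.SO Pool.Agent.Helper17.SV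

/-! ## Basic notions -/

/-- the arithmetic condition: all primes `p ≠ q` with odd exponent in `n = k - lam` are squares
modulo the prime divisor `q` of `v` -/
def ArithF (lam q k : ℕ) : Prop :=
  ∃ v n : ℕ, k = n + lam ∧ 1 ≤ n ∧ lam * v + k = k * k + lam ∧ Odd v ∧ q.Prime ∧ q ∣ v ∧
    ∀ p : ℕ, p.Prime → p ≠ q → Odd (n.factorization p) → jacobiSym (p : ℤ) q = 1

/-- `k - lam` is not divisible by `p ^ 2` for primes `p > w` -/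
def Gd (lam w k : ℕ) : Prop := ∀ p : ℕ, p.Prime → w < p → ¬ p ^ 2 ∣ k - lam

/-- the quadratic character of `1 - 4 lam`, extended by zero to the even numbers -/
def chi (lam d : ℕ) : ℤ := if d % 2 = 1 then jacobiSym (1 - 4 * (lam : ℤ)) d else 0

/-- the weight of `r` -/
def wt (lam r : ℕ) : ℤ := ∑ d ∈ r.divisors, chi lam d

/-- `∑ (τ lam r / p) / p` over the primes in `(z1, z]` -/
noncomputable def FF (lam : ℕ) (τ : ℤ) (z1 z r : ℕ) : ℝ :=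
  ∑ p ∈ PP z1 z, (jacobiSym (τ * lam * r) p : ℝ) / p

/-- exceptional `r` -/
def Exc (lam z1 zs zb r : ℕ) : Prop :=
  1 < FF lam 1 z1 zs r ∨ 1 < FF lam (-1) z1 zs r ∨
    1 < ∑ p ∈ (PP z1 zb).filter (fun p => p ∣ r), 1 / (p : ℝ)

/-! ## Block A: tools -/

/-- CHEB: Chebyshev's upper bound. -/
def ST_CHEB : Prop := ∃ C : ℝ, 0 < C ∧ ∀ N : ℕ, 2 ≤ N → ((PP 0 N).card : ℝ) ≤ C * N / Real.log N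

/-- REC: reciprocals of primes in a dyadic interval. -/
def ST_REC : Prop := ∃ C : ℝ, 0 < C ∧ ∀ Q : ℕ, 2 ≤ Q →
  ∑ q ∈ PP Q (2 * Q), 1 / (q : ℝ) ≤ C / Real.log Q

/-- CL2: at most two classes modulo a prime. -/
def ST_CL2 : Prop := ∀ lam q : ℕ, q.Prime → ∃ R : Finset ℕ, R.card ≤ 2 ∧
  ∀ k : ℕ, FD lam q k → k % q ∈ R

/-- TWO: at most `2 (x / q + 1)` integers. -/
def ST_TWO : Prop := ∀ lam q x : ℕ, q.Prime → ∀ S : Finset ℕ, (∀ k ∈ S, k ≤ x ∧ FD lam q k) →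
  (S.card : ℝ) ≤ 2 * ((x : ℝ) / q + 1)

/-- LUP: upper bound for a sum over primes of a Legendre symbol, uniform in the modulus. -/
def ST_LUP : Prop := ∃ C : ℝ, 0 ≤ C ∧ ∀ q z : ℕ, q.Prime → q ≠ 2 → 2 ≤ z →
  ∑ p ∈ PP 1 z, (jacobiSym (p : ℤ) q : ℝ) / p ≤ Real.log (1 + Real.log q) + C

/-- SL: the sieve bound. -/
def ST_SL : Prop := ∀ lam : ℕ, 1 ≤ lam → ∃ (b : ℕ) (C : ℝ), 1 ≤ b ∧ 0 < C ∧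
  ∀ (x Q a z1 z w : ℕ) (P P' : Finset ℕ), 8 * lam + 7 ≤ z1 → z1 ≤ z → 1 ≤ Q → z ^ b * Q ≤ x →
  w * z1 * Q ≤ x → P ⊆ PP z1 z → P' ⊆ PP z1 z → (∀ p ∈ P, ¬ p ∣ Q) → (∀ p ∈ P', ¬ p ∣ Q) →
  ∀ S : Finset ℕ, (∀ k ∈ S, k ≤ x ∧ k % Q = a % Q ∧ lam < k ∧ Gd lam w k ∧
    (∀ p ∈ P, (k - lam).factorization p ≠ 1) ∧ ∀ p ∈ P', ¬ FD lam p k) →
  (S.card : ℝ) ≤ C * ((x : ℝ) / Q) * (Real.exp (-∑ p ∈ P, 1 / (p : ℝ) -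
    ∑ p ∈ P', (1 + (jacobiSym (1 - 4 * (lam : ℤ)) p : ℝ)) / p) + 1 / (z1 : ℝ))

/-! ## Block B: the primes `q ≤ x sqrt L` -/

/-- RI: the range `q ≤ L ^ (1 / 4)`. -/
def ST_RI : Prop := ∀ lam : ℕ, 1 ≤ lam → ∃ C : ℝ, 0 < C ∧ ∀ x w : ℕ, 16 ≤ x →
  (w : ℝ) ≤ Real.log x → ∀ S : Finset ℕ, (∀ k ∈ S, k ≤ x ∧ Gd lam w k ∧
    ∃ q : ℕ, (q : ℝ) ≤ (Real.log x) ^ (1 / 4 : ℝ) ∧ ArithF lam q k) →
  (S.card : ℝ) ≤ C * x * (Real.log x) ^ (-(1 / 8) : ℝ)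

/-- EXQ: few exceptional primes `q`. -/
def ST_EXQ : Prop := ∀ Q z1 z : ℕ, 2 ≤ z1 → z1 ≤ z → z < Q → ∀ S : Finset ℕ,
  (∀ q ∈ S, q ∈ PP Q (2 * Q) ∧ 1 < ∑ p ∈ PP z1 z, (jacobiSym (p : ℤ) q : ℝ) / p) →
  (S.card : ℝ) ≤ 2 * ((Q : ℝ) / z1 + (z : ℝ) ^ 2)

/-- BII: a dyadic block of primes `q`. -/
def ST_BII : Prop := ∀ lam : ℕ, 1 ≤ lam → ∃ C : ℝ, 0 < C ∧ ∀ x Q w : ℕ, 16 ≤ x →
  (w : ℝ) ≤ Real.log x → 2 ≤ Q → (Q : ℝ) ≤ x / Real.exp ((Real.log x) ^ (9 / 10 : ℝ)) →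
  ∀ S : Finset ℕ, (∀ k ∈ S, k ≤ x ∧ Gd lam w k ∧ ∃ q ∈ PP Q (2 * Q), ArithF lam q k) →
  (S.card : ℝ) ≤ C * x * (Real.log Q) ^ (-(5 / 4) : ℝ)

/-- RII: the range `L ^ (1 / 4) < q ≤ x exp (- L ^ (9 / 10))`. -/
def ST_RII : Prop := ∀ lam : ℕ, 1 ≤ lam → ∃ C : ℝ, 0 < C ∧ ∀ x w : ℕ, 16 ≤ x →
  (w : ℝ) ≤ Real.log x → ∀ S : Finset ℕ, (∀ k ∈ S, k ≤ x ∧ Gd lam w k ∧
    ∃ q : ℕ, (Real.log x) ^ (1 / 4 : ℝ) < q ∧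
      (q : ℝ) ≤ x / Real.exp ((Real.log x) ^ (9 / 10 : ℝ)) ∧ ArithF lam q k) →
  (S.card : ℝ) ≤ C * x * (Real.log (Real.log x)) ^ (-(1 / 4) : ℝ)

/-- RIII: the range `x exp (- L ^ (9 / 10)) < q ≤ x sqrt L`. -/
def ST_RIII : Prop := ∀ lam : ℕ, 1 ≤ lam → ∃ C : ℝ, 0 < C ∧ ∀ x : ℕ, 16 ≤ x →
  ∀ S : Finset ℕ, (∀ k ∈ S, k ≤ x ∧ ∃ q : ℕ, q.Prime ∧
    (x : ℝ) / Real.exp ((Real.log x) ^ (9 / 10 : ℝ)) < q ∧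
      (q : ℝ) ≤ x * Real.sqrt (Real.log x) ∧ FD lam q k) →
  (S.card : ℝ) ≤ C * x * (Real.log x) ^ (-(1 / 10) : ℝ)

/-! ## Block C: the weights -/

/-- PER: incomplete character sums. -/
def ST_PER : Prop :=
  (∀ p p' : ℕ, p.Prime → p'.Prime → p ≠ 2 → p' ≠ 2 → p ≠ p' → ∀ A B : ℕ,
    |∑ n ∈ Ioc A B, jacobiSym (n : ℤ) (p * p')| ≤ p * p') ∧
  ∀ lam : ℕ, 1 ≤ lam → (∀ A B : ℕ, |∑ n ∈ Ioc A B, chi lam n| ≤ 16 * lam) ∧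
    ∀ p p' : ℕ, p.Prime → p'.Prime → p ≠ p' → 4 * lam < p → 4 * lam < p' → ∀ A B : ℕ,
      |∑ n ∈ Ioc A B, chi lam n * jacobiSym (n : ℤ) (p * p')| ≤ 16 * lam * (p * p')

/-- WNN: the weights are nonnegative. -/
def ST_WNN : Prop := ∀ lam r : ℕ, 0 ≤ wt lam r

/-- RHO: the number of roots is bounded by the weight. -/
def ST_RHO : Prop := ∀ lam : ℕ, 1 ≤ lam → ∃ C : ℝ, 0 < C ∧ ∀ r : ℕ, Odd r → ∀ R : Finset ℕ,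
  (∀ a ∈ R, a < r ∧ ((r : ℤ) ∣ (a : ℤ) ^ 2 - a + lam)) → (R.card : ℝ) ≤ C * (wt lam r : ℝ)

/-- WSUM: the sum of the weights. -/
def ST_WSUM : Prop := ∀ lam : ℕ, 1 ≤ lam → ∃ C : ℝ, 0 < C ∧ ∀ R : ℕ,
  ∑ r ∈ Ioc 0 R, (wt lam r : ℝ) ≤ C * R

/-- WREC: the sum of the weights divided by `r`. -/
def ST_WREC : Prop := ∀ lam : ℕ, 1 ≤ lam → ∃ C : ℝ, 0 < C ∧ ∀ R : ℕ, 1 ≤ R →
  ∑ r ∈ Ioc 0 R, (wt lam r : ℝ) / r ≤ C * (1 + Real.log R)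

/-- WDIV: the sum of the weights over the multiples of a prime. -/
def ST_WDIV : Prop := ∀ lam : ℕ, 1 ≤ lam → ∃ C : ℝ, 0 < C ∧ ∀ p R : ℕ, p.Prime →
  ∑ r ∈ (Ioc 0 R).filter (fun r => p ∣ r), (wt lam r : ℝ) ≤ C * ((R : ℝ) / p)

/-- WCH: the weights twisted by a character. -/
def ST_WCH : Prop := ∀ lam : ℕ, 1 ≤ lam → ∃ C : ℝ, 0 < C ∧ ∀ p p' R : ℕ, p.Prime → p'.Prime →
  p ≠ p' → 4 * lam < p → 4 * lam < p' →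
  |∑ r ∈ Ioc 0 R, (wt lam r : ℝ) * (jacobiSym (r : ℤ) (p * p') : ℝ)| ≤
    C * Real.sqrt R * (p * p')

/-- VAR2: the weighted variance. -/
def ST_VAR2 : Prop := ∀ lam : ℕ, 1 ≤ lam → ∃ C : ℝ, 0 < C ∧ ∀ (R z1 z : ℕ) (τ : ℤ),
  8 * lam + 7 ≤ z1 → z1 ≤ z → (τ = 1 ∨ τ = -1) →
  ∑ r ∈ Ioc R (2 * R), (wt lam r : ℝ) * (FF lam τ z1 z r) ^ 2 ≤
    C * ((R : ℝ) / z1 + Real.sqrt R * (z : ℝ) ^ 2)

/-- EXR: few exceptional `r`. -/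
def ST_EXR : Prop := ∀ lam : ℕ, 1 ≤ lam → ∃ C : ℝ, 0 < C ∧ ∀ R z1 zs zb : ℕ,
  8 * lam + 7 ≤ z1 → z1 ≤ zs → z1 ≤ zb → ∀ S : Finset ℕ,
  (∀ r ∈ S, r ∈ Ioc R (2 * R) ∧ Exc lam z1 zs zb r) →
  ∑ r ∈ S, (wt lam r : ℝ) ≤ C * ((R : ℝ) / z1 + Real.sqrt R * (zs : ℝ) ^ 2)

/-! ## Block D: the primes `q > x sqrt L` -/

/-- RED: reciprocity, `v = q r`. -/
def ST_RED : Prop := ∀ lam q k z v : ℕ, 1 ≤ lam → lam < k → ArithF lam q k → z < q →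
  lam * v + k = k * k + lam → ∃ r : ℕ, v = q * r ∧ Odd r ∧ ((r : ℤ) ∣ (k : ℤ) ^ 2 - k + lam) ∧
    (∃ τ : ℤ, (τ = 1 ∨ τ = -1) ∧ ∀ p : ℕ, p.Prime → p ≤ z → 2 * lam < p →
      (k - lam).factorization p = 1 → jacobiSym (τ * lam * r) p = 1) ∧
    ∀ l : ℕ, l.Prime → l ≤ z → lam < l → ¬ l ∣ r → ¬ FD lam l k

/-- BIVa: small `r`. -/
def ST_BIVa : Prop := ∀ lam : ℕ, 1 ≤ lam → ∃ C : ℝ, 0 < C ∧ ∀ x w : ℕ, 16 ≤ x →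
  (w : ℝ) ≤ Real.log x → ∀ S : Finset ℕ, (∀ k ∈ S, k ≤ x ∧ Gd lam w k ∧
    ∃ q r : ℕ, ArithF lam q k ∧ x < q ∧ lam * (q * r) + k = k * k + lam ∧
      (r : ℝ) ≤ Real.exp ((Real.log x) ^ (9 / 10 : ℝ))) →
  (S.card : ℝ) ≤ C * x * (Real.log x) ^ (-(1 / 20) : ℝ)

/-- BIVb: a dyadic block of `r`. -/
def ST_BIVb : Prop := ∀ lam : ℕ, 1 ≤ lam → ∃ C : ℝ, 0 < C ∧ ∀ x R w : ℕ, 16 ≤ x →
  (w : ℝ) ≤ (Real.log x) ^ (1 / 40 : ℝ) →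
  Real.exp ((Real.log x) ^ (9 / 10 : ℝ)) / 2 ≤ R → (R : ℝ) ≤ x / Real.sqrt (Real.log x) →
  ∀ S : Finset ℕ, (∀ k ∈ S, k ≤ x ∧ Gd lam w k ∧ ∃ q r : ℕ, ArithF lam q k ∧ x < q ∧
    lam * (q * r) + k = k * k + lam ∧ R < r ∧ r ≤ 2 * R) →
  (S.card : ℝ) ≤ C * x * (Real.log ((x : ℝ) / R)) ^ (-(5 / 4) : ℝ)

/-- RIV: the range `q > x sqrt L`. -/
def ST_RIV : Prop := ∀ lam : ℕ, 1 ≤ lam → ∃ C : ℝ, 0 < C ∧ ∀ x w : ℕ, 16 ≤ x →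
  (w : ℝ) ≤ (Real.log x) ^ (1 / 40 : ℝ) → ∀ S : Finset ℕ, (∀ k ∈ S, k ≤ x ∧ Gd lam w k ∧
    ∃ q : ℕ, x * Real.sqrt (Real.log x) < q ∧ ArithF lam q k) →
  (S.card : ℝ) ≤ C * x * (Real.log (Real.log x)) ^ (-(1 / 4) : ℝ)

/-! ## Block E: assembly -/

/-- FIN: the count. -/
def ST_FIN : Prop := ∀ lam : ℕ, 1 ≤ lam → ∃ C : ℝ, 0 < C ∧ ∀ x : ℕ, 16 ≤ x →
  ∀ S : Finset ℕ, (∀ k ∈ S, k ≤ x ∧ ∃ q : ℕ, ArithF lam q k) →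
  (S.card : ℝ) ≤ C * x * (Real.log (Real.log x)) ^ (-(1 / 4) : ℝ)

/-- DESF: a design with the automorphism gives the arithmetic condition. -/
def ST_DESF : Prop := ∀ (lam v k : ℕ) (B : Fin v → Finset (Fin v)), 1 ≤ lam → 1 ≤ k → k < v →
  SymD v k lam B → (∃ (q r : ℕ) (g : Equiv.Perm (Fin v)), q.Prime ∧ q ∣ v ∧ g ^ q ^ r = 1 ∧
    Even (nfix g) ∧ Aut B g) →
  (∃ r : ℕ, k = r * r + lam) ∨ ∃ q : ℕ, ArithF lam q k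

/-- MAINF: the theorem. -/
def ST_MAINF : Prop := ∀ lam : ℕ, 1 ≤ lam → ∃ C : ℝ, 0 < C ∧ ∀ x : ℕ, 16 ≤ x →
  ∀ S : Finset ℕ, (∀ k ∈ S, 1 ≤ k ∧ k ≤ x ∧ ∃ (v : ℕ) (B : Fin v → Finset (Fin v)),
    k < v ∧ SymD v k lam B ∧ ∃ (q r : ℕ) (g : Equiv.Perm (Fin v)), q.Prime ∧ q ∣ v ∧
      g ^ q ^ r = 1 ∧ Even (nfix g) ∧ Aut B g) →
  (S.card : ℝ) ≤ C * x * (Real.log (Real.log x)) ^ (-(1 / 4) : ℝ)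

end Pool.Agent.Helper17.FP
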