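import Pool.Agent.Helper17.FP.Stmts

set_option autoImplicit false

/-! MP_c38931_co, project FP, additional statement. -/

open Finset

namespace Pool.Agent.Helper17.FP

open Pool.Agent.Helper17.SO Pool.Agent.Helper17.SV

/-- TRQ: a transitive group of degree `v < q ^ 2`, `q ∣ v`, has a `q`-element with an even number of
fixed points. -/
def ST_TRQ : Prop := ∀ (v q : ℕ) (G : Subgroup (Equiv.Perm (Fin v))), q.Prime → q ∣ v →
  v < q ^ 2 → Odd v → (∀ a b : Fin v, ∃ g ∈ G, g a = b) →
  ∃ g ∈ G, (∃ r, g ^ q ^ r = 1) ∧ Even (nfix g)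

end Pool.Agent.Helper17.FP
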